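import Mathlib
import Pool.Agent.Helper87.LW.Dens
import Pool.Agent.Helper52.DEG.Dens
import Pool.Agent.Helper87.LW1.Dens

/-!
# LW2: the density of the good residue classes of tuples of families, projective spaces of different
dimensions
-/

set_option autoImplicit false

namespace Pool.Agent.Helper87.LW2

open MvPolynomial Pool.Agent.Helper87.LD Pool.Agent.Helper87.LW

noncomputable section

/-- the coefficients of a tuple of families of forms of degrees `d a` in `nn a` variables -/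
abbrev IdxM {s : ℕ} (nn : Fin s → ℕ) (m : ℕ) (d : Fin s → ℕ) : Type :=
  (a : Fin s) × (Fin m × Idx (nn a) (d a))

/-- the bad residue classes of tuples of families -/
def BadM {s : ℕ} (nn : Fin s → ℕ) (m D q : ℕ) (d : Fin s → ℕ) (E : Fin m → ZMod q) :
    Set (IdxM nn m d → ZMod q) :=
  {c | ¬ ∃ _ : Fact q.Prime, ∀ a, GoodD D (lg E fun j => c ⟨a, j⟩)}

theorem badM_ncard {m s D : ℕ} {nn d : Fin s → ℕ} {q : ℕ} [hq : Fact q.Prime] (E : Fin m → ZMod q)
    (hE : E ≠ 0) {κ : ℕ} (hκ : 0 < κ) (h : ∏ a, q ^ Fintype.card (Idx (nn a) (d a)) ≤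
      κ * q * ∏ a, Nat.card {c : Idx (nn a) (d a) → ZMod q // GoodD D (form c)}) :
    ((BadM nn m D q d E).ncard : ℝ) ≤
      (1 - 1 / (κ * (q : ℝ))) * (q : ℝ) ^ Fintype.card (IdxM nn m d) := by
  classical
  obtain ⟨j₀, hj₀⟩ := Function.ne_iff.1 hE
  let f : (IdxM nn m d → ZMod q) →+ ((a : Fin s) → Idx (nn a) (d a) → ZMod q) :=
    { toFun := fun c a => lc E fun j => c ⟨a, j⟩
      map_zero' := by
        funext a i
        simp [lc]
      map_add' := fun a b => by
        funext a i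
        simp [lc, mul_add, Finset.sum_add_distrib] }
  have hsurj : ∀ b : (a : Fin s) → Idx (nn a) (d a) → ZMod q, b ∈ Set.range f := by
    intro b
    refine ⟨fun j => if j.2.1 = j₀ then (E j₀)⁻¹ * b j.1 j.2.2 else 0, ?_⟩
    funext a i
    change lc E (fun j : Fin m × Idx (nn a) (d a) => if j.1 = j₀ then (E j₀)⁻¹ * b a j.2 else 0) i =
      b a i
    rw [lc, Finset.sum_eq_single j₀]
    · simp only [if_true]
      rw [mul_inv_cancel_left₀ hj₀]
    · intro j _ hj
      simp [hj]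
    · intro h
      exact absurd (Finset.mem_univ _) h
  set T₀ : (a : Fin s) → Finset (Idx (nn a) (d a) → ZMod q) := fun a =>
    Finset.univ.filter fun b => GoodD D (form b) with hT₀
  set T : Finset ((a : Fin s) → Idx (nn a) (d a) → ZMod q) := Fintype.piFinset T₀ with hT
  have h2 := fib_card f Finset.univ T (fun b _ => hsurj b) (fun _ => Finset.mem_univ _)
    (Finset.subset_univ _)
  rw [Finset.card_univ, Fintype.card_pi, Fintype.card_fun, ZMod.card] at h2
  simp only [Fintype.card_fun, ZMod.card] at h2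
  set U : Finset (IdxM nn m d → ZMod q) := Finset.univ.filter (fun a => f a ∈ T)
    with hU
  have h3 : BadM nn m D q d E = (↑U : Set (IdxM nn m d → ZMod q))ᶜ := by
    ext c
    rw [Set.mem_compl_iff, Finset.mem_coe, hU, Finset.mem_filter, hT, Fintype.mem_piFinset]
    constructor
    · rintro h ⟨_, h'⟩
      exact h ⟨hq, fun a => (Finset.mem_filter.1 (h' a)).2⟩
    · rintro h ⟨_, h'⟩
      exact h ⟨Finset.mem_univ _, fun a => Finset.mem_filter.2 ⟨Finset.mem_univ _, h' a⟩⟩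
  have h4 := Set.ncard_add_ncard_compl (↑U : Set (IdxM nn m d → ZMod q))
  rw [← h3, Set.ncard_coe_finset, Nat.card_eq_fintype_card, Fintype.card_fun, ZMod.card] at h4
  have h5 : ∀ a, Nat.card {c : Idx (nn a) (d a) → ZMod q // GoodD D (form c)} = (T₀ a).card := by
    intro a
    rw [Nat.card_eq_fintype_card, Fintype.card_subtype]
  have h5' : T.card = ∏ a, (T₀ a).card := by
    rw [hT, Fintype.card_piFinset]
  rw [Finset.prod_congr rfl fun a _ => h5 a, ← h5'] at h
  have hq0 : (0 : ℝ) < q := by exact_mod_cast hq.out.pos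
  have hκ0 : (0 : ℝ) < κ := by exact_mod_cast hκ
  have h6 : ∏ a, (q : ℝ) ^ Fintype.card (Idx (nn a) (d a)) ≤ κ * q * (T.card : ℝ) := by
    exact_mod_cast h
  have h9 : (U.card : ℝ) + ((BadM nn m D q d E).ncard : ℝ) =
      (q : ℝ) ^ Fintype.card (IdxM nn m d) := by exact_mod_cast h4
  have h10 : (U.card : ℝ) * ∏ a, (q : ℝ) ^ Fintype.card (Idx (nn a) (d a)) =
      (q : ℝ) ^ Fintype.card (IdxM nn m d) * T.card := by exact_mod_cast h2
  have h11 : 1 / (κ * (q : ℝ)) * (q : ℝ) ^ Fintype.card (IdxM nn m d) ≤ (U.card : ℝ) := by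
    rw [one_div, inv_mul_le_iff₀ (by positivity)]
    have hpos : (0 : ℝ) < ∏ a, (q : ℝ) ^ Fintype.card (Idx (nn a) (d a)) :=
      Finset.prod_pos fun a _ => by positivity
    refine le_of_mul_le_mul_right ?_ hpos
    have h12 := mul_le_mul_of_nonneg_left h6
      (by positivity : (0 : ℝ) ≤ (q : ℝ) ^ Fintype.card (IdxM nn m d))
    calc (q : ℝ) ^ Fintype.card (IdxM nn m d) * ∏ a, (q : ℝ) ^ Fintype.card (Idx (nn a) (d a))
        ≤ (q : ℝ) ^ Fintype.card (IdxM nn m d) * (κ * q * (T.card : ℝ)) := h12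
      _ = κ * q * ((q : ℝ) ^ Fintype.card (IdxM nn m d) * T.card) := by ring
      _ = κ * q * (U.card : ℝ) * ∏ a, (q : ℝ) ^ Fintype.card (Idx (nn a) (d a)) := by
          rw [← h10]; ring
  linarith

/-- the density of the good classes of tuples is at least `1 / (κ p)` -/
def DensOKM {s : ℕ} (nn : Fin s → ℕ) (D : ℕ) : Prop :=
  ∃ κ p₀ : ℕ, 0 < κ ∧ ∀ (p : ℕ) [Fact p.Prime], p₀ ≤ p → ∃ d₀ : ℕ, ∀ d : Fin s → ℕ,
    (∀ a, d₀ ≤ d a) → ∏ a, p ^ Fintype.card (Idx (nn a) (d a)) ≤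
      κ * p * ∏ a, Nat.card {c : Idx (nn a) (d a) → ZMod p // GoodD D (form c)}

/-- the density for one map -/
theorem dens_one (n D : ℕ) (hn : n = 2 ∨ n = 3 ∨ (n = 4 ∧ D = 1)) :
    ∃ κ p₀ : ℕ, 0 < κ ∧ ∀ (p : ℕ) [Fact p.Prime], p₀ ≤ p → ∃ d₀ : ℕ, ∀ d, d₀ ≤ d →
      p ^ Fintype.card (Idx n d) ≤
        κ * (if n = 4 then p else 1) * Nat.card {c : Idx n d → ZMod p // GoodD D (form c)} := by
  classical
  rcases hn with rfl | rfl | ⟨rfl, rfl⟩
  · obtain ⟨κ, p₀, hκ, h⟩ := Pool.Agent.Helper87.LW1.good_densityD_line D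
    refine ⟨κ, p₀, hκ, fun p _ hp => ?_⟩
    obtain ⟨d₀, hd₀⟩ := h p hp
    refine ⟨d₀, fun d hd => ?_⟩
    rw [if_neg (by norm_num), mul_one]
    exact hd₀ d hd
  · obtain ⟨κ, hκ, h⟩ := Pool.Agent.Helper52.DEG.good_densityD D
    refine ⟨κ, 5, hκ, fun p _ hp => ?_⟩
    obtain ⟨d₀, hd₀⟩ := h p hp
    refine ⟨d₀, fun d hd => ?_⟩
    rw [if_neg (by norm_num), mul_one]
    exact hd₀ d hd
  · refine ⟨4096, 5, by norm_num, fun p _ hp =>
      ⟨2 * Nat.card (Projectivization (ZMod p) (Fin 4 → ZMod p)), fun d hd => ?_⟩⟩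
    have h1 := good_density (n := 4) (by norm_num) hp d hd
    have h2 : Nat.card {c : Idx 4 d → ZMod p // Good (form c)} ≤
        Nat.card {c : Idx 4 d → ZMod p // GoodD 1 (form c)} := by
      rw [Nat.card_eq_fintype_card, Nat.card_eq_fintype_card]
      exact Fintype.card_subtype_mono _ _ fun c hc => goodD_one hc
    have h3 : p ^ (4 - 3) = p := pow_one p
    rw [h3] at h1
    rw [if_pos rfl]
    exact h1.trans (Nat.mul_le_mul_left _ h2)

/-- the density for tuples -/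
theorem densOKM {s : ℕ} (nn : Fin s → ℕ) (D : ℕ)
    (hnn : ∀ a, nn a = 2 ∨ nn a = 3 ∨ (nn a = 4 ∧ D = 1))
    (h4 : ∀ a b, nn a = 4 → nn b = 4 → a = b) : DensOKM nn D := by
  classical
  choose κ p₀ hκ h using fun a => dens_one (nn a) D (hnn a)
  refine ⟨∏ a, κ a, ∑ a, p₀ a, Finset.prod_pos fun a _ => hκ a, fun p hp hpp => ?_⟩
  have hpa : ∀ a, p₀ a ≤ p := fun a =>
    (Finset.single_le_sum (fun _ _ => Nat.zero_le _) (Finset.mem_univ a)).trans hpp
  choose d₀ hd₀ using fun a => h a p (hpa a)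
  refine ⟨∑ a, d₀ a, fun d hd => ?_⟩
  have hda : ∀ a, d₀ a ≤ d a := fun a =>
    (Finset.single_le_sum (fun _ _ => Nat.zero_le _) (Finset.mem_univ a)).trans (hd a)
  refine (Finset.prod_le_prod' fun a _ => hd₀ a (d a) (hda a)).trans ?_
  rw [Finset.prod_mul_distrib, Finset.prod_mul_distrib]
  refine Nat.mul_le_mul_right _ (Nat.mul_le_mul_left _ ?_)
  by_cases hex : ∃ a, nn a = 4
  · obtain ⟨a, ha⟩ := hex
    rw [Finset.prod_eq_single a]
    · rw [if_pos ha]
    · intro b _ hb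
      rw [if_neg fun hb4 => hb (h4 b a hb4 ha)]
    · intro h5
      exact absurd (Finset.mem_univ a) h5
  · rw [Finset.prod_eq_one]
    · exact hp.out.one_lt.le
    · intro b _
      rw [if_neg fun hb4 => hex ⟨b, hb4⟩]

end

end Pool.Agent.Helper87.LW2
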