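import Mathlib
import Pool.Agent.Helper26.FU.Blk
import Pool.Agent.Helper87.LW.Core

/-!
# LW2: padding of vectors and of maps with further coordinates
-/

set_option autoImplicit false

namespace Pool.Agent.Helper87.LW2

open MvPolynomial
open Pool.Agent.Helper86.DML (pmap)

noncomputable section

variable {nb n : ℕ} {R : Type*} [CommRing R]

/-- the vector `x`, followed by zeros -/
def padx (x : Fin nb → R) : Fin n → R := fun i => if h : i.1 < nb then x ⟨i.1, h⟩ else 0

/-- the map `F`, together with the identity on the further coordinates -/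
def padF (hnb : nb ≤ n) (F : Fin nb → MvPolynomial (Fin nb) R) : Fin n → MvPolynomial (Fin n) R :=
  fun i => if h : i.1 < nb then rename (Fin.castLE hnb) (F ⟨i.1, h⟩) else X i

theorem padx_castLE (hnb : nb ≤ n) (x : Fin nb → R) (i : Fin nb) :
    padx (n := n) x (Fin.castLE hnb i) = x i := by
  rw [padx, dif_pos (by exact i.2)]
  rfl

theorem padx_comp (hnb : nb ≤ n) (x : Fin nb → R) :
    (padx (n := n) x) ∘ (Fin.castLE hnb) = x := funext fun i => padx_castLE hnb x i

theorem pmap_padF (hnb : nb ≤ n) (F : Fin nb → MvPolynomial (Fin nb) R) (x : Fin nb → R) :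
    pmap (padF hnb F) (padx x) = padx (pmap F x) := by
  funext i
  rw [pmap, padF, padx]
  by_cases h : i.1 < nb
  · rw [dif_pos h, dif_pos h, eval_rename, padx_comp]
    rfl
  · rw [dif_neg h, dif_neg h, eval_X, padx, dif_neg h]

theorem totalDegree_padF (hnb : nb ≤ n) {F : Fin nb → MvPolynomial (Fin nb) R} {d : ℕ}
    (hd : 1 ≤ d) (hF : ∀ i, (F i).totalDegree ≤ d) (i : Fin n) :
    (padF hnb F i).totalDegree ≤ d := by
  rw [padF]
  by_cases h : i.1 < nb
  · rw [dif_pos h]
    exact (totalDegree_rename_le _ _).trans (hF _)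
  · rw [dif_neg h]
    rcases subsingleton_or_nontrivial R with hR | hR
    · rw [Subsingleton.elim (X i : MvPolynomial (Fin n) R) 0, totalDegree_zero]
      exact Nat.zero_le _
    · rw [totalDegree_X]
      exact hd

theorem det_padF (hnb : nb ≤ n) (F : Fin nb → MvPolynomial (Fin nb) R) (x : Fin nb → R) :
    (Matrix.of fun i j => eval (padx x) (pderiv j (padF hnb F i))).det =
      (Matrix.of fun i j => eval x (pderiv j (F i))).det := by
  classical
  let ε : Fin nb ⊕ Fin (n - nb) ≃ Fin n := finSumFinEquiv.trans (finCongr (by omega))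
  have hl : ∀ i : Fin nb, ε (Sum.inl i) = Fin.castLE hnb i := by
    intro i
    apply Fin.ext
    simp [ε]
  have hr : ∀ i : Fin (n - nb), (ε (Sum.inr i)).1 = nb + i.1 := by
    intro i
    simp [ε]
  rw [← Matrix.det_submatrix_equiv_self ε (Matrix.of fun i j =>
    eval (padx x) (pderiv j (padF hnb F i)))]
  have h1 : (Matrix.of fun i j => eval (padx x) (pderiv j (padF hnb F i))).submatrix ε ε =
      Matrix.fromBlocks (Matrix.of fun i j => eval x (pderiv j (F i))) 0 0 1 := by
    ext i j
    rcases i with i | i <;> rcases j with j | j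
    · rw [Matrix.submatrix_apply, Matrix.of_apply, Matrix.fromBlocks_apply₁₁, Matrix.of_apply,
        hl, hl, padF, dif_pos (by exact i.2)]
      have h2 : pderiv (Fin.castLE hnb j) (rename (Fin.castLE hnb) (F i)) =
          rename (Fin.castLE hnb) (pderiv j (F i)) :=
        pderiv_rename (Fin.castLE_injective hnb) j (F i)
      exact (congrArg (eval (padx x)) h2).trans (by rw [eval_rename, padx_comp])
    · rw [Matrix.submatrix_apply, Matrix.of_apply, Matrix.fromBlocks_apply₁₂, Matrix.zero_apply,
        hl, padF, dif_pos (by exact i.2), pderiv_eq_zero_of_notMem_vars, map_zero]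
      intro hmem
      have h2 := vars_rename _ _ hmem
      rw [Finset.mem_image] at h2
      obtain ⟨j', -, hj'⟩ := h2
      have h3 := hr j
      rw [← hj'] at h3
      have h4 := j'.2
      simp only [Fin.val_castLE] at h3
      omega
    · have h0 : ¬ (ε (Sum.inr i)).1 < nb := by rw [hr]; omega
      rw [Matrix.submatrix_apply, Matrix.of_apply, Matrix.fromBlocks_apply₂₁, Matrix.zero_apply,
        padF, dif_neg h0, pderiv_X_of_ne, map_zero]
      intro h
      have := ε.injective h
      simp at this
    · have h0 : ¬ (ε (Sum.inr i)).1 < nb := by rw [hr]; omega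
      rw [Matrix.submatrix_apply, Matrix.of_apply, Matrix.fromBlocks_apply₂₂, padF, dif_neg h0]
      by_cases hij : i = j
      · rw [hij, pderiv_X_self, map_one, Matrix.one_apply_eq]
      · rw [pderiv_X_of_ne, map_zero, Matrix.one_apply_ne hij]
        intro h
        exact hij (Sum.inr_injective (ε.injective h))
  rw [h1, Matrix.det_fromBlocks_zero₂₁, Matrix.det_one, mul_one]

end

end Pool.Agent.Helper87.LW2
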