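import Mathlib
import Pool.Agent.Helper87.LW2.Padx

/-!
# LW2: the uniform dichotomy at a good prime, for products of maps of projective spaces of different
dimensions and points over extensions of bounded degree
-/

set_option autoImplicit false

namespace Pool.Agent.Helper87.LW2

open MvPolynomial Pool.Agent.Helper87.LD Pool.Agent.Helper87.LW
open Pool.Agent.Helper86.DML
open Pool.Agent.Helper26.FD (adjoin_finite p_mem_maximal)
open Pool.Agent.Helper26.FU (norm_add_le' dich_blk bd expSet support_subset_expSet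
  card_residue_le norm_adjoin_le finrank_subalgebra_le)

noncomputable section

/-- every monomial of `G` has the same degree in each group of variables -/
def MultiHomS {k : ℕ} {nn : Fin k → ℕ} {R : Type*} [CommRing R]
    (G : MvPolynomial ((b : Fin k) × Fin (nn b)) R) : Prop :=
  ∃ g : Fin k → ℕ, ∀ t ∈ G.support, ∀ b, ∑ i, t ⟨b, i⟩ = g b

theorem eval_multiS {k : ℕ} {nn : Fin k → ℕ} {R : Type*} [CommRing R]
    {G : MvPolynomial ((b : Fin k) × Fin (nn b)) R}
    {g : Fin k → ℕ} (hG : ∀ t ∈ G.support, ∀ b, ∑ i, t ⟨b, i⟩ = g b) (l : Fin k → R)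
    (x : (b : Fin k) → Fin (nn b) → R) :
    eval (fun c => l c.1 * x c.1 c.2) G = (∏ b, l b ^ g b) * eval (fun c => x c.1 c.2) G := by
  rw [eval_eq', eval_eq', Finset.mul_sum]
  refine Finset.sum_congr rfl fun t ht => ?_
  have h1 : ∏ c : (b : Fin k) × Fin (nn b), (l c.1 * x c.1 c.2) ^ t c =
      (∏ b, l b ^ g b) * ∏ c : (b : Fin k) × Fin (nn b), x c.1 c.2 ^ t c := by
    simp only [mul_pow, Finset.prod_mul_distrib]
    congr 1
    rw [Fintype.prod_sigma]
    refine Finset.prod_congr rfl fun b _ => ?_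
    dsimp only
    rw [Finset.prod_pow_eq_pow_sum, hG t ht b]
  rw [h1]
  ring

variable {p : ℕ} [hp : Fact p.Prime]

/-- reduction of the orbit modulo a maximal ideal -/
theorem red_key {O : Type*} [CommRing O] [Algebra ℤ_[p] O] {κ : Type} [Field κ] [Finite κ]
    [CharP κ p] {D : ℕ} (hκ : Nat.card κ ≤ p ^ D) (π : O →+* κ) {nb d e : ℕ}
    {c : Idx nb d → ℤ_[p]} (hgood : GoodD D (form fun i => PadicInt.toZMod (c i)))
    {g : MvPolynomial (Fin nb) ℤ} (hg : g.IsHomogeneous e) (hpe : ¬ p ∣ e + d)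
    (hgx : Aniso p D g) {x₀ : Fin nb → O} (hx0 : (fun i => π (x₀ i)) ≠ 0) :
    (∀ j, π (eval ((pmap (mf g fun i => algebraMap ℤ_[p] O (c i)))^[j] x₀)
      (map (Int.castRingHom O) g)) ≠ 0) ∧
    ∀ i ℓ, 1 ≤ ℓ → (∀ j, π ((pmap (mf g fun i => algebraMap ℤ_[p] O (c i)))^[i + ℓ] x₀ j) =
      π ((pmap (mf g fun i => algebraMap ℤ_[p] O (c i)))^[i] x₀ j)) →
      π (Matrix.of fun a' c' => eval ((pmap (mf g fun i => algebraMap ℤ_[p] O (c i)))^[i] x₀)
        (pderiv c' (mf g (fun i => algebraMap ℤ_[p] O (c i)) a'))).det ≠ 0 := by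
  classical
  set Φ : Fin nb → MvPolynomial (Fin nb) O := mf g fun i => algebraMap ℤ_[p] O (c i) with hΦ
  let φ : ZMod p →+* κ := ZMod.castHom (dvd_refl p) κ
  have hgκ : ∀ z : Fin nb → κ, z ≠ 0 → eval z (map (Int.castRingHom κ) g) ≠ 0 := by
    intro z hz
    have h1 := hgx κ hκ z hz
    rwa [aeval_def, ← eval_map, (RingHom.ext_int _ _ :
      (algebraMap ℤ κ) = Int.castRingHom κ)] at h1
  have hGκ := hgood κ φ hκ
  have hpe' : ((e + d : ℕ) : κ) ≠ 0 := by
    rw [Ne, CharP.cast_eq_zero_iff κ p]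
    exact hpe
  have hmapπ : (fun i => map π (Φ i)) = fun i => map (Int.castRingHom κ) g *
      map φ (form (fun i => PadicInt.toZMod (c i)) i) := by
    rw [hΦ, map_mf]
    funext i
    rw [mf, map_form]
    congr 2
    funext j
    exact hom_padic_eq (π.comp (algebraMap ℤ_[p] O)) (c j)
  have hyπ : ∀ j, (pmap fun i => map (Int.castRingHom κ) g *
      map φ (form (fun i => PadicInt.toZMod (c i)) i))^[j] (fun i => π (x₀ i)) =
      fun i => π ((pmap Φ)^[j] x₀ i) := by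
    intro j
    rw [← hmapπ]
    exact pmap_map_iterate π Φ j x₀
  have hy0 : ∀ j, (fun i => π ((pmap Φ)^[j] x₀ i)) ≠ 0 := by
    intro j
    rw [← hyπ]
    exact mult_iterate_ne_zero hgκ hGκ hx0 j
  refine ⟨fun j => ?_, fun i ℓ hℓ hper => ?_⟩
  · rw [eval_hom, map_map, (RingHom.ext_int _ _ : π.comp (Int.castRingHom O) =
      Int.castRingHom κ)]
    exact hgκ _ (hy0 j)
  · have hper' : (pmap fun i => map (Int.castRingHom κ) g *
        map φ (form (fun i => PadicInt.toZMod (c i)) i))^[ℓ] (fun j => π ((pmap Φ)^[i] x₀ j)) =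
        fun j => π ((pmap Φ)^[i] x₀ j) := by
      have h4 := hyπ (i + ℓ)
      rw [add_comm, Function.iterate_add_apply, hyπ] at h4
      rw [h4]
      funext j
      have h5 := hper j
      rwa [add_comm i ℓ] at h5
    have h2 := mult_det (fun i => (form_isHomogeneous _ i).map φ) (hg.map _) hpe' hgκ hGκ
      (hy0 i) hℓ hper'
    have h4 : (Matrix.of fun i' j => eval (fun j => π ((pmap Φ)^[i] x₀ j)) (pderiv j
        (map (Int.castRingHom κ) g * map φ (form (fun i => PadicInt.toZMod (c i)) i')))) =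
        π.mapMatrix (Matrix.of fun i' j => eval ((pmap Φ)^[i] x₀) (pderiv j (Φ i'))) := by
      ext i' j
      rw [RingHom.mapMatrix_apply, Matrix.map_apply, Matrix.of_apply, Matrix.of_apply,
        ← congrFun hmapπ i', pderiv_map, ← eval_hom]
    rw [h4, ← RingHom.map_det] at h2
    exact h2

/-- the orbit of one factor: the multiplier does not vanish, and the map is unramified at the
points which are periodic modulo `p` -/
theorem factor {O : Subalgebra ℤ_[p] (PadicAlgCl p)} [Module.Finite ℤ_[p] O] [Module.Free ℤ_[p] O]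
    {D : ℕ} (hrank : Module.finrank ℤ_[p] O ≤ D) {nb d e : ℕ}
    {c : Idx nb d → ℤ_[p]} (hgood : GoodD D (form fun i => PadicInt.toZMod (c i)))
    {g : MvPolynomial (Fin nb) ℤ} (hg : g.IsHomogeneous e) (hpe : ¬ p ∣ e + d)
    (hgx : Aniso p D g) {x₀ : Fin nb → O} {i₀ : Fin nb} (hi₀ : x₀ i₀ = 1) :
    (∀ j, eval ((pmap (mf g fun i => algebraMap ℤ_[p] O (c i)))^[j] x₀)
      (map (Int.castRingHom O) g) ≠ 0) ∧
    ∀ i ℓ, 1 ≤ ℓ → (∀ j, (p : O) ∣ (pmap (mf g fun i => algebraMap ℤ_[p] O (c i)))^[i + ℓ] x₀ j -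
      (pmap (mf g fun i => algebraMap ℤ_[p] O (c i)))^[i] x₀ j) →
      IsUnit (Matrix.of fun a' c' => eval ((pmap (mf g fun i => algebraMap ℤ_[p] O (c i)))^[i] x₀)
        (pderiv c' (mf g (fun i => algebraMap ℤ_[p] O (c i)) a'))).det := by
  classical
  set Φ : Fin nb → MvPolynomial (Fin nb) O := mf g fun i => algebraMap ℤ_[p] O (c i) with hΦ
  have key : ∀ (𝔪 : Ideal O), 𝔪.IsMaximal →
      (∀ j, eval ((pmap Φ)^[j] x₀) (map (Int.castRingHom O) g) ∉ 𝔪) ∧
      ∀ i ℓ, 1 ≤ ℓ → (∀ j, (p : O) ∣ (pmap Φ)^[i + ℓ] x₀ j - (pmap Φ)^[i] x₀ j) →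
        (Matrix.of fun a c => eval ((pmap Φ)^[i] x₀) (pderiv c (Φ a))).det ∉ 𝔪 := by
    intro 𝔪 h𝔪
    let : Field (O ⧸ 𝔪) := Ideal.Quotient.field 𝔪
    let π := Ideal.Quotient.mk 𝔪
    obtain ⟨hfm, hcm⟩ := card_residue_le (p := p) 𝔪
    have hκ : Nat.card (O ⧸ 𝔪) ≤ p ^ D := hcm.trans (Nat.pow_le_pow_right hp.out.pos hrank)
    have hπp : π (p : O) = 0 := Ideal.Quotient.eq_zero_iff_mem.2 (p_mem_maximal 𝔪)
    have hpk : ((p : ℕ) : O ⧸ 𝔪) = 0 := by
      have h1 := hπp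
      rw [map_natCast] at h1
      exact h1
    have hchar : CharP (O ⧸ 𝔪) p := ringChar.of_eq (CharP.ringChar_of_prime_eq_zero hp.out hpk)
    have hx0 : (fun i => π (x₀ i)) ≠ 0 := by
      intro h
      have h2 := congrFun h i₀
      rw [hi₀, map_one] at h2
      exact one_ne_zero h2
    obtain ⟨h1, h2⟩ := red_key hκ π hgood hg hpe hgx hx0
    refine ⟨fun j hj => h1 j (Ideal.Quotient.eq_zero_iff_mem.2 hj),
      fun i ℓ hℓ hper hmem => h2 i ℓ hℓ (fun j => ?_) (Ideal.Quotient.eq_zero_iff_mem.2 hmem)⟩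
    obtain ⟨u, hu⟩ := hper j
    refine (Ideal.Quotient.eq).2 ?_
    have h5 : (pmap Φ)^[i + ℓ] x₀ j - (pmap Φ)^[i] x₀ j ∈ 𝔪 := by
      rw [hu]
      exact 𝔪.mul_mem_right _ (p_mem_maximal 𝔪)
    exact h5
  obtain ⟨𝔪₀, h𝔪₀⟩ := Ideal.exists_maximal O
  refine ⟨fun j h0 => (key 𝔪₀ h𝔪₀).1 j (by rw [h0]; exact 𝔪₀.zero_mem), fun i ℓ hℓ hper => ?_⟩
  by_contra hnu
  obtain ⟨𝔪, h𝔪, hmem⟩ := exists_max_ideal_of_mem_nonunits hnu
  exact (key 𝔪 h𝔪).2 i ℓ hℓ hper hmem

/-- the orbit of one factor, compared with the complex orbit -/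
theorem factor_cmp {O : Subalgebra ℤ_[p] (PadicAlgCl p)} {nb d : ℕ}
    {c : Idx nb d → ℤ_[p]} {g : MvPolynomial (Fin nb) ℤ} {x₀ : Fin nb → O}
    (hgy : ∀ j, eval ((pmap (mf g fun i => algebraMap ℤ_[p] O (c i)))^[j] x₀)
      (map (Int.castRingHom O) g) ≠ 0)
    {τ : ℂ →+* PadicAlgCl p} {a : Idx nb d → ℂ}
    (ha : ∀ i, τ (a i) = algebraMap ℤ_[p] (PadicAlgCl p) (c i)) {α : Fin nb → ℂ} {i₀ : Fin nb}
    (hα : τ (α i₀) ≠ 0) (hx : ∀ i, (x₀ i : PadicAlgCl p) = τ (α i / α i₀)) (m : ℕ) :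
    ∃ l : PadicAlgCl p, l ≠ 0 ∧
      (fun i => (((pmap (mf g fun i => algebraMap ℤ_[p] O (c i)))^[m] x₀ i : O) :
        PadicAlgCl p)) = fun i => l * τ ((pmap (form a))^[m] α i) := by
  let ρ : O →+* PadicAlgCl p := O.val
  let β : Fin nb → PadicAlgCl p := fun i => ρ (x₀ i)
  have hΦρ : (fun i => map ρ (mf g (fun i => algebraMap ℤ_[p] O (c i)) i)) =
      fun i => map (Int.castRingHom (PadicAlgCl p)) g *
        form (fun i => algebraMap ℤ_[p] (PadicAlgCl p) (c i)) i := by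
    rw [map_mf]
    rfl
  have hyρ : ∀ j, (pmap fun i => map (Int.castRingHom (PadicAlgCl p)) g *
      form (fun i => algebraMap ℤ_[p] (PadicAlgCl p) (c i)) i)^[j] β =
      fun i => ρ ((pmap (mf g fun i => algebraMap ℤ_[p] O (c i)))^[j] x₀ i) := by
    intro j
    rw [← hΦρ]
    exact pmap_map_iterate ρ _ j x₀
  obtain ⟨t, ht, htu⟩ := iterate_mult
    (F := form fun i => algebraMap ℤ_[p] (PadicAlgCl p) (c i))
    (form_isHomogeneous _) (map (Int.castRingHom (PadicAlgCl p)) g) β m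
  have ht0 : t ≠ 0 := (htu fun j _ => isUnit_iff_ne_zero.2 (by
    rw [hyρ]
    intro h0
    have h3 := eval_hom ρ (map (Int.castRingHom O) g)
      ((pmap (mf g fun i => algebraMap ℤ_[p] O (c i)))^[j] x₀)
    rw [map_map, (RingHom.ext_int _ _ : ρ.comp (Int.castRingHom O) =
      Int.castRingHom (PadicAlgCl p)), h0] at h3
    exact hgy j (Subtype.ext h3))).ne_zero
  have h3 : (form fun i => algebraMap ℤ_[p] (PadicAlgCl p) (c i)) =
      fun i => map τ (form a i) := by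
    rw [form_map]
    congr 1
    funext i
    exact (ha i).symm
  have h4 : β = fun i => (τ (α i₀))⁻¹ * τ (α i) := by
    funext i
    have h5 := hx i
    rw [map_div₀, div_eq_inv_mul] at h5
    exact h5
  refine ⟨t * ((τ (α i₀))⁻¹) ^ d ^ m, mul_ne_zero ht0 (pow_ne_zero _ (inv_ne_zero hα)), ?_⟩
  have h5 : (fun i => (((pmap (mf g fun i => algebraMap ℤ_[p] O (c i)))^[m] x₀ i : O) :
      PadicAlgCl p)) = (pmap fun i => map (Int.castRingHom (PadicAlgCl p)) g *
      form (fun i => algebraMap ℤ_[p] (PadicAlgCl p) (c i)) i)^[m] β := (hyρ m).symm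
  rw [h5, ht, h3, h4]
  rw [pmap_smul_iterate (fun i => (form_isHomogeneous a i).map τ), pmap_map_iterate]
  funext i
  ring

end

end Pool.Agent.Helper87.LW2
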