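import Mathlib
import Pool.Agent.Helper87.LW2.Core

/-!
# LW2: the uniform dichotomy at a good prime. Assembly of the factors
-/

set_option autoImplicit false

namespace Pool.Agent.Helper87.LW2

open MvPolynomial Pool.Agent.Helper87.LD Pool.Agent.Helper87.LW
open Pool.Agent.Helper86.DML
open Pool.Agent.Helper26.FD (adjoin_finite p_mem_maximal)
open Pool.Agent.Helper26.FU (norm_add_le' dich_blk bd expSet support_subset_expSet
  card_residue_le norm_adjoin_le finrank_subalgebra_le)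

noncomputable section

/-- the orbit of a point of a product -/
def orb {k : ℕ} {nn : Fin k → ℕ} (P : (b : Fin k) → Fin (nn b) → MvPolynomial (Fin (nn b)) ℂ)
    (α : (b : Fin k) → Fin (nn b) → ℂ) (m : ℕ) (x : (b : Fin k) × Fin (nn b)) : ℂ :=
  (pmap (P x.1))^[m] (α x.1) x.2

variable {p : ℕ} [hp : Fact p.Prime]

/-- renaming of the variables -/
def ren {k n : ℕ} {nn : Fin k → ℕ} (hnn : ∀ b, nn b ≤ n) (x : (b : Fin k) × Fin (nn b)) :
    Fin k × Fin n := (x.1, Fin.castLE (hnn x.1) x.2)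

/-- the comparison of the evaluations -/
theorem eval_cmp {k n : ℕ} {nn d : Fin k → ℕ} (hnn : ∀ b, nn b ≤ n) {O : Type*} [CommRing O]
    (ρ : O →+* PadicAlgCl p) (τ : ℂ →+* PadicAlgCl p) (y : (b : Fin k) → Fin (nn b) → O)
    (a : (b : Fin k) → Idx (nn b) (d b) → ℂ) (α : (b : Fin k) → Fin (nn b) → ℂ) (m : ℕ)
    {l : Fin k → PadicAlgCl p} (hl : ∀ b, l b ≠ 0)
    (h2 : ∀ b, (fun i => ρ (y b i)) = fun i => l b * τ ((pmap (form (a b)))^[m] (α b) i))
    {G : MvPolynomial ((b : Fin k) × Fin (nn b)) ℂ} (hG : MultiHomS G) :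
    eval (fun x : Fin k × Fin n => ρ (padx (y x.1) x.2))
      (rename (ren hnn) (MvPolynomial.map τ G)) = 0 ↔
      eval (orb (fun b => form (a b)) α m) G = 0 := by
  obtain ⟨w, hw⟩ := hG
  rw [eval_rename]
  have h3 : ((fun x : Fin k × Fin n => ρ (padx (y x.1) x.2)) ∘ ren hnn) =
      fun x => l x.1 * τ (orb (fun b => form (a b)) α m x) := by
    funext x
    have h4 := congrFun (h2 x.1) x.2
    rw [Function.comp_apply, ren]
    dsimp only
    rw [padx_castLE]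
    exact h4
  rw [h3, eval_multiS (G := MvPolynomial.map τ G) (g := w)
    (fun t ht => hw t (support_map_subset _ _ ht)) l
    (fun b i => τ (orb (fun b => form (a b)) α m ⟨b, i⟩))]
  have h4 : eval (fun x : (b : Fin k) × Fin (nn b) =>
      τ (orb (fun b => form (a b)) α m ⟨x.1, x.2⟩)) (MvPolynomial.map τ G) =
      τ (eval (orb (fun b => form (a b)) α m) G) := by
    rw [eval_map, eval₂_comp]
    rfl
  rw [h4]
  constructor
  · intro h5
    exact (map_eq_zero τ).1 ((mul_eq_zero.1 h5).resolve_left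
      (Finset.prod_ne_zero_iff.2 fun b _ => pow_ne_zero _ (hl b)))
  · intro h5
    rw [h5, map_zero, mul_zero]

/-- **The core.** -/
theorem core_mixed (hp3 : 3 ≤ p) (k n D δ : ℕ) (nn d : Fin k → ℕ) (hnn : ∀ b, nn b ≤ n) : ∃ K : ℕ,
    ∀ c : (b : Fin k) → Idx (nn b) (d b) → ℤ_[p],
      (∀ b, GoodD D (form fun i => PadicInt.toZMod (c b i))) →
    ∀ (τ : ℂ →+* PadicAlgCl p) (a : (b : Fin k) → Idx (nn b) (d b) → ℂ),
      (∀ b i, τ (a b i) = algebraMap ℤ_[p] (PadicAlgCl p) (c b i)) →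
    ∀ (L : Subalgebra ℚ_[p] (PadicAlgCl p)) [FiniteDimensional ℚ_[p] L],
      Module.finrank ℚ_[p] L ≤ D →
    ∀ α : (b : Fin k) → Fin (nn b) → ℂ, (∀ b, α b ≠ 0) → (∀ b i j, τ (α b i / α b j) ∈ L) →
    ∀ G : MvPolynomial ((b : Fin k) × Fin (nn b)) ℂ, MultiHomS G → G.totalDegree ≤ δ → ∀ r : ℕ,
      {m | eval (orb (fun b => form (a b)) α (bd (k * n) p D + r +
        (bd (k * n) p D).factorial * (bd (k * n) p D).factorial * m)) G = 0}.encard ≤ K ∨
        ∀ m, eval (orb (fun b => form (a b)) α (bd (k * n) p D + r +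
          (bd (k * n) p D).factorial * (bd (k * n) p D).factorial * m)) G = 0 := by
  classical
  choose e g hpe hg hgx using fun b => exists_multD (p := p) D (nn b) (d b)
  obtain ⟨K, hK⟩ := dich_blk hp3 k n (∑ b, (e b + d b) + 1) D (by omega) (expSet k n δ)
  refine ⟨K, ?_⟩
  intro c hgood τ a ha L _ hL α hα hαL G hG hGδ r
  -- the largest coordinates
  have hmax : ∀ b, ∃ i₀, ∀ i, ‖τ (α b i)‖ ≤ ‖τ (α b i₀)‖ := by
    intro b
    have hne : (Finset.univ : Finset (Fin (nn b))).Nonempty := by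
      obtain ⟨i, -⟩ := Function.ne_iff.1 (hα b)
      exact ⟨i, Finset.mem_univ i⟩
    obtain ⟨i₀, -, h⟩ := Finset.exists_max_image Finset.univ (fun i => ‖τ (α b i)‖) hne
    exact ⟨i₀, fun i => h i (Finset.mem_univ i)⟩
  choose i₀ hmax using hmax
  have hα0 : ∀ b, τ (α b (i₀ b)) ≠ 0 := by
    intro b h
    apply hα b
    funext i
    have h1 := hmax b i
    rw [h, norm_zero] at h1
    exact (map_eq_zero τ).1 (norm_le_zero_iff.1 h1)
  obtain ⟨β, hβ⟩ : ∃ β : (b : Fin k) → Fin (nn b) → PadicAlgCl p,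
      β = fun b i => τ (α b i / α b (i₀ b)) := ⟨_, rfl⟩
  have hβ1 : ∀ b i, ‖β b i‖ ≤ 1 := by
    intro b i
    rw [hβ]
    dsimp only
    rw [map_div₀, norm_div, div_le_one (norm_pos_iff.2 (hα0 b))]
    exact hmax b i
  have hβ0 : ∀ b, β b (i₀ b) = 1 := by
    intro b
    rw [hβ]
    dsimp only
    rw [map_div₀, div_self (hα0 b)]
  have hβL : ∀ b i, β b i ∈ L := by
    intro b i
    rw [hβ]
    exact hαL b i (i₀ b)
  -- the ring
  obtain ⟨A, hA⟩ : ∃ A : Set (PadicAlgCl p),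
      A = Set.range fun x : (b : Fin k) × Fin (nn b) => β x.1 x.2 := ⟨_, rfl⟩
  have hAfin : A.Finite := by
    rw [hA]
    exact Set.finite_range _
  have hA1 : ∀ z ∈ A, ‖z‖ ≤ 1 := by
    rw [hA]
    rintro z ⟨x, rfl⟩
    exact hβ1 _ _
  have hAL : ∀ z ∈ A, z ∈ L := by
    rw [hA]
    rintro z ⟨x, rfl⟩
    exact hβL _ _
  obtain ⟨hfin, hfree⟩ := adjoin_finite (p := p) hAfin
    (fun a ha => isIntegral_of_norm_le_one _ (hA1 a ha))
  have hmemA : ∀ b i, β b i ∈ Algebra.adjoin ℤ_[p] A := by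
    intro b i
    refine Algebra.subset_adjoin ?_
    rw [hA]
    exact ⟨⟨b, i⟩, rfl⟩
  have hOL : ∀ z ∈ Algebra.adjoin ℤ_[p] A, z ∈ L.toSubmodule := by
    intro z hz
    have h1 : Algebra.adjoin ℤ_[p] A ≤ L.restrictScalars ℤ_[p] := Algebra.adjoin_le hAL
    exact h1 hz
  have hρ : ∀ z : Algebra.adjoin ℤ_[p] A, ‖(z : PadicAlgCl p)‖ ≤ 1 := fun z =>
    norm_adjoin_le hA1 z.2
  generalize hO : Algebra.adjoin ℤ_[p] A = O at hfin hfree hmemA hOL hρ
  have hrank : Module.finrank ℤ_[p] O ≤ D := by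
    have : FiniteDimensional ℚ_[p] L.toSubmodule :=
      (inferInstance : FiniteDimensional ℚ_[p] L)
    exact (finrank_subalgebra_le O L.toSubmodule hOL).trans hL
  obtain ⟨x₀, hx₀⟩ : ∃ x₀ : (b : Fin k) → Fin (nn b) → O, ∀ b i, (x₀ b i : PadicAlgCl p) =
      β b i := ⟨fun b i => ⟨β b i, hmemA b i⟩, fun b i => rfl⟩
  have hx1 : ∀ b, x₀ b (i₀ b) = 1 := fun b => Subtype.ext ((hx₀ b (i₀ b)).trans (hβ0 b))
  have hfac : ∀ b, _ := fun b => factor hrank (hgood b) (hg b) (hpe b) (hgx b) (hx1 b)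
  have hcmp : ∀ m b, _ := fun m b => factor_cmp (hfac b).1 (ha b) (hα0 b)
    (fun i => (hx₀ b i).trans (by rw [hβ])) m
  choose l hl hlm using hcmp
  obtain ⟨Φ, hΦ⟩ : ∃ Φ : (b : Fin k) → Fin (nn b) → MvPolynomial (Fin (nn b)) O,
      Φ = fun b => mf (g b) fun i => algebraMap ℤ_[p] O (c b i) := ⟨_, rfl⟩
  obtain ⟨y, hy⟩ : ∃ y : ℕ → (b : Fin k) → Fin (nn b) → O,
      y = fun m b => (pmap (Φ b))^[m] (x₀ b) := ⟨_, rfl⟩
  have hy1 : ∀ m b, y (m + 1) b = pmap (Φ b) (y m b) := by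
    intro m b
    rw [hy]
    exact Function.iterate_succ_apply' _ _ _
  have hΦd : ∀ b i, (Φ b i).totalDegree ≤ ∑ b, (e b + d b) + 1 := by
    intro b i
    have h1 : e b + d b ≤ ∑ b, (e b + d b) :=
      Finset.single_le_sum (f := fun b => e b + d b) (fun _ _ => Nat.zero_le _) (Finset.mem_univ b)
    have h2 := (mf_isHomogeneous (hg b) (fun i => algebraMap ℤ_[p] O (c b i)) i).totalDegree_le
    rw [hΦ]
    exact h2.trans (by omega)
  -- the padded system
  obtain ⟨ρ, hρdef⟩ : ∃ ρ : O →+* PadicAlgCl p, ∀ z : O, ρ z = (z : PadicAlgCl p) :=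
    ⟨O.val, fun _ => rfl⟩
  have hρ' : ∀ z, ‖ρ z‖ ≤ 1 := fun z => by
    rw [hρdef]
    exact hρ z
  have hdeg' : ∀ b i, (padF (hnn b) (Φ b) i).totalDegree ≤ ∑ b, (e b + d b) + 1 := fun b i =>
    totalDegree_padF (hnn b) (Nat.le_add_left 1 _) (hΦd b) i
  have hstep : ∀ m b, (padx (y (m + 1) b) : Fin n → O) =
      pmap (padF (hnn b) (Φ b)) (padx (y m b)) := fun m b => by
    rw [pmap_padF, hy1]
  have hdet' : ∀ i ℓ, 1 ≤ ℓ → (∀ b (j : Fin n), (p : O) ∣ padx (y (i + ℓ) b) j -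
      padx (y i b) j) → ∀ b, IsUnit (Matrix.of fun a' c' =>
        eval (padx (y i b)) (pderiv c' (padF (hnn b) (Φ b) a'))).det := by
    intro i ℓ hℓ hper b
    rw [det_padF]
    have h3 := (hfac b).2 i ℓ hℓ (fun j => by
      have h2 := hper b (Fin.castLE (hnn b) j)
      rw [padx_castLE, padx_castLE, hy, hΦ] at h2
      exact h2)
    rw [hy, hΦ]
    exact h3
  obtain ⟨G', hG'⟩ : ∃ G' : MvPolynomial (Fin k × Fin n) (PadicAlgCl p),
      G' = rename (ren hnn) (MvPolynomial.map τ G) := ⟨_, rfl⟩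
  have hdG : (MvPolynomial.map τ G).totalDegree ≤ δ := by
    refine le_trans ?_ hGδ
    rw [totalDegree, totalDegree]
    exact Finset.sup_mono (support_map_subset _ _)
  have hsupp : G'.support ⊆ expSet k n δ := by
    rw [hG']
    exact support_subset_expSet ((totalDegree_rename_le _ _).trans hdG)
  have hiff : ∀ m, eval (fun x : Fin k × Fin n => ρ (padx (y m x.1) x.2)) G' = 0 ↔
      eval (orb (fun b => form (a b)) α m) G = 0 := by
    intro m
    rw [hG']
    refine eval_cmp hnn ρ τ (y m) a α m (l := l m) (hl m) (fun b => ?_) hG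
    have h3 := hlm m b
    rw [← h3, hy, hΦ]
    funext i
    exact hρdef _
  have h1 := hK O hrank (fun b => padF (hnn b) (Φ b)) hdeg' (fun m b => padx (y m b)) hstep hdet'
    ρ hρ' G' hsupp r
  simp only [hiff] at h1
  exact h1

end

end Pool.Agent.Helper87.LW2
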